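import Pool.Agent.Q269.SX.Avg
import Pool.Agent.Q269.SX.Grp
import Pool.Agent.Q269.SX.Asm
import Pool.Agent.Q269.AV.A5

/-!
# The exact distribution and the exact averages of the 2-Selmer groups of the quadratic twists of elliptic curves over
# `k(t)` in each class of twists with given split places, that is, given root number

Let `k` be a finite field of characteristic different from 2 in which `-1` is a square, `K = k(t)`, and
let `R` be a finite set. For each `r` in `R` let `a r 1, a r 2, a r 3` be polynomials over `k` whose differences have the same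
degree `N r ≥ 1` and a squarefree product `Δ r`; suppose that `Δ r` and `Δ r'` are coprime for `r ≠ r'`. For a monic
squarefree polynomial `D` prime to all the `Δ r` let `E(r, D)` be the elliptic curve

`y ^ 2 = D(t) (x - a r 1) (x - a r 2) (x - a r 3)`

over `K`, the quadratic twist by `D` of `E(r, 1)`. All the curves are twisted by the same polynomial `D`. It has multiplicative
reduction at the prime divisors `Q` of `Δ r`, and if `Q` divides `a r i - a r j` and `l` is the third index, it is split if and only if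
`D (a r i - a r l)` is a square modulo `Q`. The root number of `E(r, D)` is `(-1) ^ (number of the split places)` for `m + N r` odd, `m` the
degree of `D` (quoted, not used). Let

`S(r, D) = |E(K) / (E(K)[2] + 2 E(K))| |Ш'(E)[2]|`, `E = E(r, D)`,

where `Ш'(E)` is the group of the classes in `H ^ 1 (K, E)` which are trivial over the completions of `K` at all the places
different from infinity. (By the duality of Poitou and Tate the condition at infinity is a consequence of the other ones for the classes in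
`H ^ 1 (K, E[2])`, since `m + N r` is odd, so that `S(r, D)` is the order of the 2-Selmer group of `E` divided by `|E[2]| = 4`; this is not used.)

For a family of sets `S r` of prime divisors of `Δ r` we consider the class of the `D` of degree `m` for which the set of the split places
of `E(r, D)` is `S r` for all `r`. `k` is fixed and `m` tends to infinity, `m + N r` odd for all `r`. Let
`signedLaw s e = 2 p(e)` for `e ≡ s` modulo 2 and `0` otherwise, `p(e) = (β / 2) 2 ^ e / ((2 - 1) (2 ^ 2 - 1) ⋯ (2 ^ e - 1))`,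
`β = ∏_(i ≥ 0) (1 - 2 ^ (- 2 i - 1)) = 0.4194…`, a probability distribution on the natural numbers.

Theorem. (1) For ALL `D` both groups are finite, `S(r, D) = 2 ^ (e(r, D))`, and `e(r, D)` is congruent modulo 2 to the number of the split
places of `E(r, D)`.

(2) Each class has the density `2 ^ (- ∑_r |primes dividing Δ r|)`.

(3) In each class, for EVERY real function `f` on the vectors `(e r)_(r ∈ R)` with `|f(e)| ≤ C ∏_r 2 ^ (u e r)` for some `u` and `C`, the mean
of `f((e(r, D))_r)` converges to the expectation of `f` at a vector of independent random variables with the laws `signedLaw |S r|`.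
So (`f` the indicator function of a set) the distribution of `(e(r, D))_r` converges to the product of these laws.

(4) In each class, for all natural numbers `u r`, the mean of `∏_r S(r, D) ^ (u r)` converges to `∏_r (1 + 2) (1 + 2 ^ 2) ⋯ (1 + 2 ^ (u r))`:
the mean of `S(r, D)` is 3 for both root numbers.

(5) In each class the mean of `log₂ S(r, D)` converges to `ρ(|S r|)`, the mean value of `signedLaw |S r|`, and
`1.2038 < ρ(s) ≤ 1.204` for even `s` (root number 1), `1.3249 < ρ(s) ≤ 1.3251` for odd `s` (root number -1).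

Only upper bounds (domination by these laws, `≤` in (4) and (5), for one curve) were known (`RootNumberLaw`, `AverageRank`); over `ℚ` see Heath-Brown (congruent
numbers), Swinnerton-Dyer and Kane. The expected values of the rank are 0 and 1 in the two cases; the average of `log₂ S(r, D)` is an upper bound
for that of the rank plus the corank of the 2-primary part of the Tate-Shafarevich group.
-/

set_option autoImplicit false
set_option linter.all false

namespace Pool.Agent.Results.MP_81dc49_nt.ExactLawByRootNumber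

open Polynomial Filter IsDedekindDomain Pool.Agent.Y713.Jac
open scoped Classical

/-- The product of the differences `a i - a j`, `i < j`. -/
noncomputable def differences {k : Type} [Field k] {n : ℕ} (a : Fin n → k[X]) : k[X] :=
  ∏ x ∈ (Finset.univ : Finset (Fin n × Fin n)).filter (fun x => x.1 < x.2), (a x.1 - a x.2)

/-- The curve: `k` is a finite field of characteristic different from two in which `-1` is a square, `n ≥ 3` is odd, the
differences `a i - a j` have the same degree `N ≥ 1`, and their product over `i < j` is squarefree. -/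
structure Family {k : Type} [Field k] {n : ℕ} (a : Fin n → k[X]) (N : ℕ) : Prop where
  two : (2 : k) ≠ 0
  square : IsSquare (-1 : k)
  odd : Odd n
  three : 3 ≤ n
  pos : 1 ≤ N
  degree : ∀ i j, i ≠ j → (a i - a j).natDegree = N
  squarefree : Squarefree (differences a)

/-- The monic squarefree polynomials `D` of degree `m` prime to the differences `a r i - a r j` of all
the families. -/
def Twists {k : Type} [Field k] {R : Type} {n : R → ℕ} (a : (r : R) → Fin (n r) → k[X]) (m : ℕ) :
    Set k[X] :=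
  {D | D.Monic ∧ D.natDegree = m ∧ Squarefree D ∧ ∀ r i j, i ≠ j → IsCoprime D (a r i - a r j)}

/-- The polynomial `D(t) (x - a 1) ⋯ (x - a n)` in `x` over `K = k(t)`. -/
noncomputable def twist {k : Type} [Field k] (K : Type) [Field K] [Algebra k[X] K] {n : ℕ}
    (a : Fin n → k[X]) (D : k[X]) : K[X] :=
  C (algebraMap k[X] K D) * ∏ i, (X - C (algebraMap k[X] K (a i)))

/-- The subgroup `J(K)[2] + 2 J(K)` of `J(K)`, `J` the Jacobian of `y ^ 2 = F(x)` over `K`: the group generated by the kernel and the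
image of the squaring (multiplicative notation). -/
noncomputable def torsionAndDoubles {K : Type} [Field K] (F : K[X]) : Subgroup (J 2 F K) :=
  (powMonoidHom 2).ker ⊔ (powMonoidHom 2).range

/-- The cocycles with values in `J` which are trivial over the completions of `K = Frac R` at the primes of `R` and whose class is
killed by two. -/
def LocallyTrivialTwo {K : Type} [Field K] (F : K[X]) (R : Type) [CommRing R] [IsDedekindDomain R] [Algebra R K]
    [IsFractionRing R K] : Type :=
  {c : Cochain 2 F // IsCocycle 2 F c ∧ IsLocallyTrivial 2 F R c ∧ IsCoboundary 2 F (fun σ => c σ ^ 2)}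

/-- The number of the classes in `H ^ 1 (K, J)` killed by two which are trivial over the completions of `K` at the primes of `R`. -/
noncomputable def shaOrder {K : Type} [Field K] (F : K[X]) (R : Type) [CommRing R] [IsDedekindDomain R] [Algebra R K]
    [IsFractionRing R K] : ℕ :=
  Nat.card (Quot fun c c' : LocallyTrivialTwo F R => IsCoboundary 2 F (fun σ => c.1 σ / c'.1 σ))

/-- Both groups are finite and the product of their orders is `M`. -/
structure HasOrder {K : Type} [Field K] (F : K[X]) (R : Type) [CommRing R] [IsDedekindDomain R] [Algebra R K]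
    [IsFractionRing R K] (M : ℕ) : Prop where
  order : (torsionAndDoubles F).index * shaOrder F R = M
  points : (torsionAndDoubles F).index ≠ 0
  sha : shaOrder F R ≠ 0

/-- The places of multiplicative reduction: the monic prime divisors of the differences. -/
def badPlaces {k : Type} [Field k] {n : ℕ} (a : Fin n → k[X]) : Set k[X] :=
  {Q | Q.Monic ∧ Irreducible Q ∧ Q ∣ differences a}

/-- The places where the reduction of the curve twisted by `D` is split. -/
def splitPlaces {k : Type} [Field k] {n : ℕ} (a : Fin n → k[X]) (D : k[X]) : Set k[X] :=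
  {Q ∈ badPlaces a | ∃ i j : Fin n, i ≠ j ∧ Q ∣ a i - a j ∧
    ∃ h : k[X], Q ∣ h ^ 2 - D * ∏ l ∈ Finset.univ.filter (fun l => l ≠ i ∧ l ≠ j), (a i - a l)}

/-- The `D` for which the set of the split places of the `r`-th curve is `S r` for all `r`. -/
def SplitClass {k : Type} [Field k] {R : Type} {n : R → ℕ} (a : (r : R) → Fin (n r) → k[X]) (S : R → Set k[X])
    (m : ℕ) : Set k[X] :=
  {D ∈ Twists a m | ∀ r, splitPlaces (a r) D = S r}

/-- `m` goes to infinity with `m + N r` odd for all `r`. -/
def degrees {R : Type} (N : R → ℕ) : Filter ℕ := atTop ⊓ 𝓟 {m | ∀ r, Odd (m + N r)}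

/-- The infinite product of the numbers `1 - 2 ^ (- 2 i - 1)`, `i ≥ 0`. -/
noncomputable def beta : ℝ := ∏' i : ℕ, (1 - (1 / 2 : ℝ) ^ (2 * i + 1))

/-- The probability of `e` in the law `p`. -/
noncomputable def law (e : ℕ) : ℝ :=
  beta / 2 * (2 ^ e / ∏ i ∈ Finset.range e, ((2 : ℝ) ^ (i + 1) - 1))

/-- The law `2 p` on the numbers congruent to `s` modulo two. -/
noncomputable def signedLaw (s e : ℕ) : ℝ := if Even (e + s) then 2 * law e else 0

/-- The mean of `f` over the set `S`. -/
noncomputable def mean {α : Type} (S : Set α) (f : α → ℝ) : ℝ := (∑ᶠ D ∈ S, f D) / (S.ncard : ℝ)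

/-- The mean value of the law `signedLaw s`. -/
noncomputable def rho (s : ℕ) : ℝ := ∑' e : ℕ, (e : ℝ) * signedLaw s e

section proof

open Pool.Agent.Q269.SX Pool.Agent.Y164.HG
open Pool.Agent.Q269.SL (law2 lawc)

theorem law_eq : law2 = law := by
  funext e
  rw [Pool.Agent.Q269.SL.law2_eq]
  rfl

theorem signedLaw_eq (s : ℕ) : lawc (s : ZMod 2) = signedLaw s := by
  funext e
  rw [Pool.Agent.Q269.SL.lawc_eq, law_eq]
  have h4 : ((e : ZMod 2) = (s : ZMod 2)) ↔ Even (e + s) := by
    rw [← ZMod.natCast_eq_zero_iff_even]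
    push_cast
    have h5 : ∀ x y : ZMod 2, x = y ↔ x + y = 0 := by decide
    exact h5 _ _
  unfold signedLaw
  simp only [h4]

theorem tad_eq {K : Type} [Field K] (F : K[X]) : torsionAndDoubles F = tsub F := by
  ext x
  unfold torsionAndDoubles
  rw [Subgroup.mem_sup]
  constructor
  · rintro ⟨t, ht, z, ⟨y, rfl⟩, rfl⟩
    exact ⟨t, y, ht, rfl⟩
  · rintro ⟨t, y, ht, rfl⟩
    exact ⟨t, ht, y ^ 2, ⟨y, rfl⟩, rfl⟩

theorem order_of {K : Type} [Field K] {F : K[X]} {R : Type} [CommRing R] [IsDedekindDomain R] [Algebra R K]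
    [IsFractionRing R K] {M : ℕ} (g1 : (tsub F).index * nSh F R = M) (g2 : (tsub F).index ≠ 0) (g3 : nSh F R ≠ 0) :
    HasOrder F R M :=
  ⟨by rw [tad_eq]; exact g1, by rw [tad_eq]; exact g2, g3⟩

theorem geo {k : Type} [Field k] [Fintype k] {n : ℕ} {a : Fin n → k[X]} {N : ℕ} (h : Family a N) : Geo a N := by
  refine ⟨?_, h.square, h.odd, h.three, h.pos, h.degree, h.squarefree⟩
  intro h0
  apply h.two
  have := ringChar.Nat.cast_ringChar (R := k)
  rw [h0] at this
  exact_mod_cast this

variable {k : Type} [Field k] [Fintype k] {R : Type} [Fintype R] {n : R → ℕ} {a : ∀ r, Fin (n r) → k[X]}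
  {N : R → ℕ}

theorem mem_tw {m : ℕ} {D : k[X]} : D ∈ Twists a m ↔ D ∈ Pool.Agent.Q269.GR.Dn (∏ r, Del (a r)) m :=
  Pool.Agent.Q269.SX.mem_twm

theorem ncard_tw (m : ℕ) : ((Pool.Agent.Q269.GR.Dn (∏ r, Del (a r)) m).card) = (Twists a m).ncard :=
  (Pool.Agent.Q269.SX.card_twm m).symm

theorem ncard_fil (m : ℕ) (P Q : k[X] → Prop) (i : DecidablePred Q)
    (h : ∀ D, D ∈ Pool.Agent.Q269.GR.Dn (∏ r, Del (a r)) m → (Q D ↔ P D)) :
    (@Finset.filter _ Q i (Pool.Agent.Q269.GR.Dn (∏ r, Del (a r)) m)).card = {D ∈ Twists a m | P D}.ncard := by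
  rw [← Set.ncard_coe_finset]
  congr 1
  ext D
  rw [Finset.mem_coe, Finset.mem_filter]
  show _ ↔ D ∈ Twists a m ∧ P D
  rw [mem_tw]
  exact and_congr_right fun hD => h D hD

theorem mem_cls (H : ∀ r, Geo (a r) (N r)) {S : R → Set k[X]} (hS : ∀ r, S r ⊆ badPlaces (a r)) {m : ℕ} {D : k[X]} :
    D ∈ SplitClass a S m ↔ D ∈ clF H (fun r => sgT (a r) (S r)) m := by
  unfold clF
  rw [Finset.mem_filter]
  show D ∈ Twists a m ∧ _ ↔ _
  rw [mem_tw]
  refine and_congr_right fun hD => ?_
  refine forall_congr' fun r => ?_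
  exact (cls_iff (H r) Pool.Agent.Q269.SX.Asm.d_KDR (mem_of hD r) (hS r)).symm

theorem cls_coe (H : ∀ r, Geo (a r) (N r)) {S : R → Set k[X]} (hS : ∀ r, S r ⊆ badPlaces (a r)) (m : ℕ) :
    SplitClass a S m = ((clF H (fun r => sgT (a r) (S r)) m : Finset k[X]) : Set k[X]) := by
  ext D
  rw [Finset.mem_coe]
  exact mem_cls H hS

theorem pcl_eq (H : ∀ r, Geo (a r) (N r)) {S : R → Set k[X]} (hS : ∀ r, S r ⊆ badPlaces (a r)) (e : R → ℕ) :
    pcl a e (fun r => sgT (a r) (S r)) = ∏ r, signedLaw (S r).ncard (e r) := by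
  unfold pcl
  refine Finset.prod_congr rfl fun r _ => ?_
  have h := sgT_sum (H r) (hS r)
  rw [← signedLaw_eq]
  exact congrArg (fun c => lawc c (e r)) h


theorem mean_eq (H : ∀ r, Geo (a r) (N r)) {S : R → Set k[X]} (hS : ∀ r, S r ⊆ badPlaces (a r)) (m : ℕ) (f : k[X] → ℝ) :
    (∑ D ∈ clF H (fun r => sgT (a r) (S r)) m, f D) / ((clF H (fun r => sgT (a r) (S r)) m).card : ℝ) =
      mean (SplitClass a S m) f := by
  unfold mean
  rw [cls_coe H hS, Set.ncard_coe_finset, finsum_mem_coe_finset]

theorem rho_eq (s : ℕ) : rho s = Pool.Agent.Q269.AV.rhoc (s : ZMod 2) := by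
  rw [rho, ← signedLaw_eq]
  rfl

theorem bet_gt : 0.4194 < Pool.Agent.Q269.MF.bet := by
  have e0 : 0.4194 < 2 * law 0 := by
    have e1 : 2 * law 0 = ∏' i : ℕ, (1 - (1 / 2 : ℝ) ^ (2 * i + 1)) := by
      unfold law beta
      rw [Finset.prod_range_zero, pow_zero, div_one]
      ring
    rw [e1]
    exact Pool.Agent.Y948.CQ.t_C2.2.2.2.1
  rw [← law_eq, Pool.Agent.Q269.AV.law2_bb, Pool.Agent.Q269.AV.bb_zero] at e0
  linarith

theorem rhoc_ge (c : ZMod 2) : Pool.Agent.Q269.MF.bet * ∑ e ∈ Finset.range 7, (e : ℝ) * Pool.Agent.Q269.AV.bc c e ≤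
    Pool.Agent.Q269.AV.rhoc c := by
  have h1 : ∑ e ∈ Finset.range 7, (e : ℝ) * lawc c e ≤ Pool.Agent.Q269.AV.rhoc c :=
    Summable.sum_le_tsum (Finset.range 7) (fun e _ => mul_nonneg (Nat.cast_nonneg _) (Pool.Agent.Q269.SL.lawc_nonneg c e))
      (Pool.Agent.Q269.AV.summable_ec c)
  refine le_trans (le_of_eq ?_) h1
  rw [Finset.mul_sum]
  refine Finset.sum_congr rfl fun e _ => ?_
  rw [Pool.Agent.Q269.AV.lawc_bc]
  ring

theorem rho_even {s : ℕ} (hs : Even s) : 1.2038 < rho s ∧ rho s ≤ 1.204 := by
  have e1 : (s : ZMod 2) = 0 := (ZMod.natCast_eq_zero_iff_even).2 hs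
  rw [rho_eq, e1]
  constructor
  · have h1 := rhoc_ge 0
    have h2 := bet_gt
    obtain ⟨b0, b1, b2, b3, b4, b5, b6⟩ := Pool.Agent.Q269.AV.bc0
    simp only [Finset.sum_range_succ, Finset.range_zero, Finset.sum_empty, b0, b1, b2, b3, b4, b5, b6] at h1
    norm_num at h1 h2 ⊢
    linarith
  · have h1 := Pool.Agent.Q269.AV.rhoc_zero
    norm_num at h1 ⊢
    linarith

theorem rho_odd {s : ℕ} (hs : Odd s) : 1.3249 < rho s ∧ rho s ≤ 1.3251 := by
  have e1 : (s : ZMod 2) = 1 := (ZMod.natCast_eq_one_iff_odd).2 hs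
  rw [rho_eq, e1]
  constructor
  · have h1 := rhoc_ge 1
    have h2 := bet_gt
    obtain ⟨b0, b1, b2, b3, b4, b5, b6, -⟩ := Pool.Agent.Q269.AV.bc1
    simp only [Finset.sum_range_succ, Finset.range_zero, Finset.sum_empty, b0, b1, b2, b3, b4, b5, b6] at h1
    norm_num at h1 h2 ⊢
    linarith
  · have h1 := Pool.Agent.Q269.AV.rhoc_one
    norm_num at h1 ⊢
    linarith

end proof

open Pool.Agent.Q269.SX Pool.Agent.Y164.HG in
/-- **Theorem.** -/
theorem result (k : Type) [Field k] [Finite k] (K : Type) [Field K] [Algebra k[X] K] [IsFractionRing k[X] K]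
    (R : Type) [Fintype R] [Nonempty R] (N : R → ℕ) (a : R → Fin 3 → k[X]) (h : ∀ r, Family (a r) (N r))
    (hc : ∀ r r', r ≠ r' → IsCoprime (differences (a r)) (differences (a r'))) :
    (∀ s, HasSum (signedLaw s) 1 ∧ Summable fun e : ℕ => (e : ℝ) * signedLaw s e) ∧
    (∀ s, Even s → 1.2038 < rho s ∧ rho s ≤ 1.204) ∧ (∀ s, Odd s → 1.3249 < rho s ∧ rho s ≤ 1.3251) ∧
    ∃ e : k[X] → R → ℕ,
      (∀ m : ℕ, (∀ r, Odd (m + N r)) → ∀ D ∈ Twists a m, ∀ r,
        HasOrder (twist K (a r) D) k[X] (2 ^ e D r) ∧ Even (e D r + (splitPlaces (a r) D).ncard)) ∧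
      ∀ S : R → Set k[X], (∀ r, S r ⊆ badPlaces (a r)) →
        Tendsto (fun m => ((SplitClass a S m).ncard : ℝ) / ((Twists a m).ncard : ℝ)) (degrees N)
          (nhds ((2 : ℝ) ^ (∑ r, (badPlaces (a r)).ncard))⁻¹) ∧
        (∀ (f : (R → ℕ) → ℝ) (u : ℕ) (C : ℝ), (∀ x, |f x| ≤ C * ∏ r, ((2 : ℝ) ^ u) ^ x r) →
          Summable (fun x : R → ℕ => f x * ∏ r, signedLaw (S r).ncard (x r)) ∧
          Tendsto (fun m => mean (SplitClass a S m) fun D => f (e D)) (degrees N)
            (nhds (∑' x : R → ℕ, f x * ∏ r, signedLaw (S r).ncard (x r)))) ∧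
        (∀ u : R → ℕ, Tendsto (fun m => mean (SplitClass a S m) fun D => ∏ r, ((2 : ℝ) ^ e D r) ^ u r) (degrees N)
          (nhds (∏ r, ∏ i ∈ Finset.range (u r), (1 + (2 : ℝ) ^ (i + 1))))) ∧
        ∀ r, Tendsto (fun m => mean (SplitClass a S m) fun D => (e D r : ℝ)) (degrees N) (nhds (rho (S r).ncard)) := by
  let _ : Fintype k := Fintype.ofFinite k
  obtain ⟨r₀⟩ := (inferInstance : Nonempty R)
  have H : ∀ r, Geo (a r) (N r) := fun r => geo (h r)
  have hk : ringChar k ≠ 2 := (H r₀).hk
  have hm : IsSquare (-1 : k) := (H r₀).hm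
  have hc' : ∀ r r', r ≠ r' → IsCoprime (Del (a r)) (Del (a r')) := hc
  have key : ∀ S : R → Set k[X], (∀ r, S r ⊆ badPlaces (a r)) → ∀ (f : (R → ℕ) → ℝ) (u : ℕ) (C : ℝ), (∀ x, |f x| ≤ C * wt u x) →
      Summable (fun x : R → ℕ => f x * ∏ r, signedLaw (S r).ncard (x r)) ∧
      Tendsto (fun m => mean (SplitClass a S m) fun D => f (fun r => ex (H r) D)) (degrees N)
        (nhds (∑' x : R → ℕ, f x * ∏ r, signedLaw (S r).ncard (x r))) := by
    intro S hS f u C hf
    obtain ⟨g1, g2⟩ := mean_cls H Asm.d_SEL Asm.d_BDX Asm.d_KDR Asm.d_LWM Asm.d_CLS hc' hk hm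
      (fun r => sgT (a r) (S r)) f u C hf
    simp only [pcl_eq H hS] at g1 g2
    refine ⟨g1, g2.congr fun m => ?_⟩
    exact mean_eq H hS m _
  refine ⟨?_, fun s hs => rho_even hs, fun s hs => rho_odd hs, fun D r => ex (H r) D, ?_, ?_⟩
  · intro s
    rw [← signedLaw_eq]
    exact ⟨Pool.Agent.Q269.SL.hasSum_lawc _, Pool.Agent.Q269.AV.summable_ec _⟩
  · intro m ho D hD r
    have hD' : D ∈ Pool.Agent.Q269.GR.Dn (Del (a r)) m := mem_of (mem_tw.1 hD) r
    have h4 := exact_kD (K := K) (H r) Asm.d_SEL Asm.d_BDX Asm.d_KDR m (ho r) D hD'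
    rw [(kD_pow (H r) Asm.d_KDR (ho r) hD').1] at h4
    obtain ⟨g1, g2, g3⟩ := Asm.d_CRD K _ k[X] _ h4 (by positivity)
    refine ⟨order_of g1 g2 g3, ?_⟩
    have h5 := parity (H r) Asm.d_KDR (ho r) hD'
    have h6 : (splitPlaces (a r) D).ncard = {Q ∈ BadN (a r) | SplitN (a r) D Q}.ncard := rfl
    show Even (ex (H r) D + (splitPlaces (a r) D).ncard)
    rw [Nat.even_iff, h6]
    omega
  · intro S hS
    refine ⟨?_, fun f u C hf => key S hS f u C hf, ?_, ?_⟩
    · have h1 := cls_prop H Asm.d_CLS hc' hk hm (fun r => sgT (a r) (S r))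
      have e1 : (∑ r, Fintype.card (Tau (a r))) = ∑ r, (badPlaces (a r)).ncard :=
        Finset.sum_congr rfl fun r _ => (badN_card (H r)).symm
      rw [e1] at h1
      refine h1.congr fun m => ?_
      rw [cls_coe H hS, Set.ncard_coe_finset, ncard_tw]
    · intro u
      obtain ⟨U, hU⟩ : ∃ U : ℕ, ∀ r, u r ≤ U :=
        ⟨∑ r, u r, fun r => Finset.single_le_sum (fun _ _ => Nat.zero_le _) (Finset.mem_univ r)⟩
      obtain ⟨-, g2⟩ := key S hS (fun x => ∏ r, ((2 : ℝ) ^ x r) ^ u r) U 1 (fun x => by
        rw [one_mul, abs_of_nonneg (Finset.prod_nonneg fun r _ => by positivity)]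
        unfold wt
        refine Finset.prod_le_prod (fun r _ => by positivity) fun r _ => ?_
        rw [← pow_mul, ← pow_mul]
        exact pow_le_pow_right₀ (by norm_num) (by rw [mul_comm]; exact Nat.mul_le_mul_right _ (hU r)))
      have g3 := hasSum_prod (fun r e => signedLaw (S r).ncard e * ((2 : ℝ) ^ u r) ^ e)
        (fun r => ∏ i ∈ Finset.range (u r), (1 + (2 : ℝ) ^ (i + 1)))
        (fun r e => mul_nonneg (by rw [← signedLaw_eq]; exact Pool.Agent.Q269.SL.lawc_nonneg _ _) (by positivity))
        (fun r => by rw [← signedLaw_eq]; exact mom_lawc _ (u r))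
      have g4 : (∑' x : R → ℕ, (∏ r, ((2 : ℝ) ^ x r) ^ u r) * ∏ r, signedLaw (S r).ncard (x r)) =
          ∏ r, ∏ i ∈ Finset.range (u r), (1 + (2 : ℝ) ^ (i + 1)) := by
        rw [← g3.tsum_eq]
        refine tsum_congr fun x => ?_
        rw [← Finset.prod_mul_distrib]
        refine Finset.prod_congr rfl fun r _ => ?_
        rw [← pow_mul, ← pow_mul, mul_comm (x r) (u r), mul_comm]
      rw [g4] at g2
      exact g2
    · intro r
      obtain ⟨-, g2⟩ := key S hS (fun x => (x r : ℝ)) 1 1 (fun x => by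
        rw [one_mul, abs_of_nonneg (Nat.cast_nonneg _)]
        have h1 : (x r : ℝ) ≤ (2 : ℝ) ^ x r := by exact_mod_cast (Nat.lt_two_pow_self (n := x r)).le
        refine h1.trans ?_
        unfold wt
        rw [← Finset.mul_prod_erase Finset.univ (fun r => ((2 : ℝ) ^ 1) ^ x r) (Finset.mem_univ r), pow_one]
        refine le_mul_of_one_le_right (by positivity) ?_
        calc (1 : ℝ) = ∏ _s ∈ Finset.univ.erase r, (1 : ℝ) := by rw [Finset.prod_const_one]
          _ ≤ ∏ s ∈ Finset.univ.erase r, ((2 : ℝ)) ^ x s :=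
            Finset.prod_le_prod (fun _ _ => zero_le_one) fun s _ => one_le_pow₀ (by norm_num))
      have g3 := hasSum_prod (fun s e => if s = r then (e : ℝ) * signedLaw (S s).ncard e else signedLaw (S s).ncard e)
        (fun s => if s = r then rho (S s).ncard else 1)
        (fun s e => by
          have : 0 ≤ signedLaw (S s).ncard e := by rw [← signedLaw_eq]; exact Pool.Agent.Q269.SL.lawc_nonneg _ _
          split_ifs
          · exact mul_nonneg (Nat.cast_nonneg _) this
          · exact this)
        (fun s => by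
          split_ifs
          · rw [rho_eq, ← signedLaw_eq]
            exact (Pool.Agent.Q269.AV.summable_ec _).hasSum
          · rw [← signedLaw_eq]
            exact Pool.Agent.Q269.SL.hasSum_lawc _)
      have g4 : (∑' x : R → ℕ, (x r : ℝ) * ∏ r, signedLaw (S r).ncard (x r)) = rho (S r).ncard := by
        have e1 : ∏ s, (if s = r then rho (S s).ncard else (1 : ℝ)) = rho (S r).ncard := by
          rw [Finset.prod_ite_eq' Finset.univ r]
          simp
        rw [← e1, ← g3.tsum_eq]
        refine tsum_congr fun x => ?_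
        rw [← Finset.mul_prod_erase Finset.univ (fun s => signedLaw (S s).ncard (x s)) (Finset.mem_univ r),
          ← Finset.mul_prod_erase Finset.univ
            (fun s => if s = r then (x s : ℝ) * signedLaw (S s).ncard (x s) else signedLaw (S s).ncard (x s)) (Finset.mem_univ r),
          if_pos rfl, mul_assoc]
        congr 2
        refine Finset.prod_congr rfl fun s hs => ?_
        rw [if_neg (Finset.ne_of_mem_erase hs)]
      rw [g4] at g2
      exact g2

end Pool.Agent.Results.MP_81dc49_nt.ExactLawByRootNumber
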