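import Pool.Agent.Q161.ESN.Fin

/-!
# Ranks of the elliptic curves with a given j-invariant over EVERY number field: bounded averages

Let `F` be a number field and `E_{a,b} : y² = x³ + a x + b`, `a, b ≠ 0`, an elliptic curve over `F` without `F`-rational
point of order two.  We consider the family of ALL elliptic curves `E_{A,B}` over `F` with the same j-invariant, up to
isomorphism.  They are ordered by `oddNorm (A B)`, the norm of the product of the prime ideals of `F` at which the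
valuation of `A B` is odd; it depends only on the isomorphism class of `E_{A,B}`, and its square is up to constants the
norm of the conductor.  We prove that there are between `X / C` and `C X` curves up to `X`, that the averages of the ranks,
of all powers of the ranks and of `2^(k rank)` for all `k` over the curves up to `X` are bounded by constants independent of
`X`, and that the proportion of the curves of rank at least `n` is `O_k(2^(-k n))` for every `k`.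

The proof (projects ESM, ESF, ESN; `Pool/Agent/Q161`) bounds all moments of the orders of the 2-Selmer groups: the
2-descent over `F`, a system of quadratic characters of ray classes of `F` and of fields containing `F` attached to the
elements of a finite semisimple Galois module, and high moments of these characters.
Project of helper161 with helpers 14, 24, 26, 38, 63, 65, 68, 79, 92, 96, 121, 123, 124, 129, 147, 149, 150, 151, 153, 166,
177, 182, 184, 190, 193, 195, 208, 211, 223, 224, 237, 238, 241, 261, 275, 285, 299.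
-/

set_option autoImplicit false

namespace Pool.Agent.Results.MP_81dc49_nt.FixedJInvariant

open Finset NumberField Pool.Agent.Q161.ESN

open scoped Classical

section defs

variable {F : Type} [Field F] [NumberField F]

/-- the rank of the group of the points over `F` of the elliptic curve `y² = x³ + A x + B`, `P = (A, B)` -/
noncomputable def rk (P : F × F) : ℕ :=
  Module.finrank ℤ (⟨0, 0, 0, P.1, P.2⟩ : WeierstrassCurve F).toAffine.Point

/-- the elliptic curves `E_P` and `E_Q` are isomorphic over `F` -/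
def Iso (P Q : F × F) : Prop := ∃ u : F, u ≠ 0 ∧ Q.1 = u ^ 4 * P.1 ∧ Q.2 = u ^ 6 * P.2

/-- `E_P` is an elliptic curve with the same j-invariant as `E_(a, b)`, up to `X` -/
structure Mem (a b : F) (X : ℝ) (P : F × F) : Prop where
  disc : 4 * P.1 ^ 3 + 27 * P.2 ^ 2 ≠ 0
  sameJ : 1728 * (4 * P.1 ^ 3) / (4 * P.1 ^ 3 + 27 * P.2 ^ 2) =
    1728 * (4 * a ^ 3) / (4 * a ^ 3 + 27 * b ^ 2)
  norm : (oddNorm (P.1 * P.2) : ℝ) ≤ X

/-- `𝒲` is a finite set of elliptic curves over `F` with the j-invariant of `E_(a, b)`, up to `X`, not isomorphic to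
each other -/
structure Curves (a b : F) (X : ℝ) (𝒲 : Finset (F × F)) : Prop where
  mem : ∀ P ∈ 𝒲, Mem a b X P
  dist : ∀ P ∈ 𝒲, ∀ Q ∈ 𝒲, P ≠ Q → ¬ Iso P Q

/-- `𝒲` is a complete set of representatives of the isomorphism classes of the elliptic curves over `F` with the
j-invariant of `E_(a, b)` up to `X` -/
structure AllCurves (a b : F) (X : ℝ) (𝒲 : Finset (F × F)) : Prop extends Curves a b X 𝒲 where
  all : ∀ P, Mem a b X P → ∃ Q ∈ 𝒲, Iso P Q

end defs

section proof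

variable {F : Type} [Field F] [NumberField F] {a b : F}

/-- the coefficients of the twist of `E_(a, b)` by `a b`, whose product is a square -/
def ca (a b : F) : F := a * (a * b) ^ 2

/-- see `ca` -/
def cb (a b : F) : F := b * (a * b) ^ 3

/-- the twist `D` for which `E_P` is the twist by `D` of the curve with the coefficients `ca`, `cb` -/
noncomputable def dd (b : F) (P : F × F) : F := P.2 / (b ^ 2 * P.1)

/-- the twist by `D` -/
def pt (a b : F) (D : F) : F × F := (ca a b * D ^ 2, cb a b * D ^ 3)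

theorem disc0 (ha : a ≠ 0) (h : ∀ x : F, x ^ 3 + a * x + b ≠ 0) : 4 * a ^ 3 + 27 * b ^ 2 ≠ 0 := by
  intro h0
  refine h (-3 * b / (2 * a)) ?_
  field_simp
  linear_combination b * h0 * (-1)

theorem noroot (ha : a ≠ 0) (hb : b ≠ 0) (h : ∀ x : F, x ^ 3 + a * x + b ≠ 0) (x : F) :
    x ^ 3 + ca a b * x + cb a b ≠ 0 := by
  intro h0
  have hab : a * b ≠ 0 := mul_ne_zero ha hb
  refine h (x / (a * b)) ?_
  unfold ca cb at h0
  field_simp
  linear_combination h0

theorem Mem.spec {X : ℝ} {P : F × F} (ha : a ≠ 0) (hb : b ≠ 0) (h : ∀ x : F, x ^ 3 + a * x + b ≠ 0)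
    (hP : Mem a b X P) : dd b P ≠ 0 ∧ P = pt a b (dd b P) ∧ P.1 ≠ 0 ∧ P.2 ≠ 0 := by
  have h1 := hP.disc
  have h2 := hP.sameJ
  have h3 := disc0 ha h
  rw [div_eq_div_iff h1 h3] at h2
  have h4 : P.1 ^ 3 * b ^ 2 = a ^ 3 * P.2 ^ 2 := by
    have h5 : (1728 * 4 * 27 : F) * (P.1 ^ 3 * b ^ 2 - a ^ 3 * P.2 ^ 2) = 0 := by
      linear_combination h2
    have h6 : (1728 * 4 * 27 : F) ≠ 0 := by norm_num
    exact sub_eq_zero.1 ((mul_eq_zero.1 h5).resolve_left h6)
  have hA : P.1 ≠ 0 := by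
    intro h0
    rw [h0] at h4 h1
    have h5 : P.2 = 0 := by
      have h6 : a ^ 3 * P.2 ^ 2 = 0 := by
        rw [← h4]
        ring
      exact pow_eq_zero_iff (two_ne_zero) |>.1 ((mul_eq_zero.1 h6).resolve_left (pow_ne_zero _ ha))
    apply h1
    rw [h5]
    ring
  have hB : P.2 ≠ 0 := by
    intro h0
    rw [h0] at h4
    have h6 : P.1 ^ 3 * b ^ 2 = 0 := by
      rw [h4]
      ring
    exact (mul_ne_zero (pow_ne_zero _ hA) (pow_ne_zero _ hb)) h6
  refine ⟨div_ne_zero hB (mul_ne_zero (pow_ne_zero _ hb) hA), ?_, hA, hB⟩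
  refine Prod.ext ?_ ?_
  · unfold pt dd ca
    field_simp
    linear_combination h4
  · unfold pt dd cb
    field_simp
    linear_combination h4

theorem dd_pt (ha : a ≠ 0) (hb : b ≠ 0) {D : F} (hD : D ≠ 0) : dd b (pt a b D) = D := by
  unfold dd pt ca cb
  field_simp

theorem norm_pt (ha : a ≠ 0) (hb : b ≠ 0) {D : F} (hD : D ≠ 0) :
    oddNorm ((pt a b D).1 * (pt a b D).2) = oddNorm D := by
  have e : (pt a b D).1 * (pt a b D).2 = D * ((a * b) ^ 3 * D ^ 2) ^ 2 := by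
    unfold pt ca cb
    ring
  rw [e, oddNorm_mul_sq]
  exact mul_ne_zero (pow_ne_zero _ (mul_ne_zero ha hb)) (pow_ne_zero _ hD)

theorem mem_pt (ha : a ≠ 0) (hb : b ≠ 0) (h : ∀ x : F, x ^ 3 + a * x + b ≠ 0) {X : ℝ} {D : F}
    (hD : D ≠ 0) (hX : (oddNorm D : ℝ) ≤ X) : Mem a b X (pt a b D) := by
  have h3 := disc0 ha h
  have hab : a * b ≠ 0 := mul_ne_zero ha hb
  have e : 4 * (pt a b D).1 ^ 3 + 27 * (pt a b D).2 ^ 2 =
      (a * b * D) ^ 6 * (4 * a ^ 3 + 27 * b ^ 2) := by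
    unfold pt ca cb
    ring
  have h4 : 4 * (pt a b D).1 ^ 3 + 27 * (pt a b D).2 ^ 2 ≠ 0 := by
    rw [e]
    exact mul_ne_zero (pow_ne_zero _ (mul_ne_zero hab hD)) h3
  refine ⟨h4, ?_, by rw [norm_pt ha hb hD]; exact hX⟩
  rw [div_eq_div_iff h4 h3, e]
  unfold pt ca
  ring

theorem iso_iff (ha : a ≠ 0) (hb : b ≠ 0) {D D' : F} (hD : D ≠ 0) (hD' : D' ≠ 0) :
    Iso (pt a b D) (pt a b D') ↔ IsSquare (D * D') := by
  constructor
  · rintro ⟨u, hu, h1, h2⟩
    have h3 : dd b (pt a b D') = u ^ 2 * dd b (pt a b D) := by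
      unfold dd
      rw [h1, h2]
      have h4 : (pt a b D).1 ≠ 0 := mul_ne_zero (mul_ne_zero ha (pow_ne_zero _ (mul_ne_zero ha hb)))
        (pow_ne_zero _ hD)
      field_simp
    rw [dd_pt ha hb hD, dd_pt ha hb hD'] at h3
    refine ⟨u * D, ?_⟩
    rw [h3]
    ring
  · rintro ⟨q, hq⟩
    have hq0 : q ≠ 0 := by
      rintro rfl
      rw [mul_zero] at hq
      exact (mul_ne_zero hD hD') hq
    have h1 : D' = (q / D) ^ 2 * D := by
      field_simp
      linear_combination hq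
    refine ⟨q / D, div_ne_zero hq0 hD, ?_, ?_⟩
    · change ca a b * D' ^ 2 = (q / D) ^ 4 * (ca a b * D ^ 2)
      rw [h1]
      ring
    · change cb a b * D' ^ 3 = (q / D) ^ 6 * (cb a b * D ^ 3)
      rw [h1]
      ring

theorem rk_pt (D : F) : rk (pt a b D) = rank (ca a b) (cb a b) D := rfl

theorem inj (ha : a ≠ 0) (hb : b ≠ 0) (h : ∀ x : F, x ^ 3 + a * x + b ≠ 0) {X : ℝ}
    {𝒲 : Finset (F × F)} (h𝒲 : Curves a b X 𝒲) : Set.InjOn (dd b) 𝒲 := by
  intro P hP Q hQ e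
  rw [((h𝒲.mem P hP).spec ha hb h).2.1, ((h𝒲.mem Q hQ).spec ha hb h).2.1, e]

theorem twists (ha : a ≠ 0) (hb : b ≠ 0) (h : ∀ x : F, x ^ 3 + a * x + b ≠ 0) {X : ℝ}
    {𝒲 : Finset (F × F)} (h𝒲 : Curves a b X 𝒲) : Twists X (𝒲.image (dd b)) := by
  refine ⟨fun D hD => ?_, fun D hD => ?_, fun D hD D' hD' hne hsq => ?_⟩
  · obtain ⟨P, hP, rfl⟩ := mem_image.1 hD
    exact ((h𝒲.mem P hP).spec ha hb h).1
  · obtain ⟨P, hP, rfl⟩ := mem_image.1 hD
    obtain ⟨h1, h2, -⟩ := (h𝒲.mem P hP).spec ha hb h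
    have h3 := (h𝒲.mem P hP).norm
    rw [h2, norm_pt ha hb h1] at h3
    exact h3
  · obtain ⟨P, hP, rfl⟩ := mem_image.1 hD
    obtain ⟨Q, hQ, rfl⟩ := mem_image.1 hD'
    obtain ⟨h1, h2, -⟩ := (h𝒲.mem P hP).spec ha hb h
    obtain ⟨h3, h4, -⟩ := (h𝒲.mem Q hQ).spec ha hb h
    refine h𝒲.dist P hP Q hQ (fun e => hne (by rw [e])) ?_
    rw [h2, h4]
    exact (iso_iff ha hb h1 h3).2 hsq

theorem allTwists (ha : a ≠ 0) (hb : b ≠ 0) (h : ∀ x : F, x ^ 3 + a * x + b ≠ 0) {X : ℝ}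
    {𝒲 : Finset (F × F)} (h𝒲 : AllCurves a b X 𝒲) : AllTwists X (𝒲.image (dd b)) := by
  refine ⟨twists ha hb h h𝒲.toCurves, fun D hD hX => ?_⟩
  obtain ⟨Q, hQ, hiso⟩ := h𝒲.all (pt a b D) (mem_pt ha hb h hD hX)
  obtain ⟨h3, h4, -⟩ := (h𝒲.mem Q hQ).spec ha hb h
  rw [h4] at hiso
  exact ⟨dd b Q, mem_image_of_mem _ hQ, (iso_iff ha hb hD h3).1 hiso⟩

theorem exists_allCurves (ha : a ≠ 0) (hb : b ≠ 0) (h : ∀ x : F, x ^ 3 + a * x + b ≠ 0) {X : ℝ}
    {𝒟 : Finset F} (h𝒟 : AllTwists X 𝒟) : AllCurves a b X (𝒟.image (pt a b)) := by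
  refine ⟨⟨fun P hP => ?_, fun P hP Q hQ hne hiso => ?_⟩, fun P hP => ?_⟩
  · obtain ⟨D, hD, rfl⟩ := mem_image.1 hP
    exact mem_pt ha hb h (h𝒟.ne D hD) (h𝒟.norm D hD)
  · obtain ⟨D, hD, rfl⟩ := mem_image.1 hP
    obtain ⟨D', hD', rfl⟩ := mem_image.1 hQ
    exact h𝒟.dist D hD D' hD' (fun e => hne (by rw [e]))
      ((iso_iff ha hb (h𝒟.ne D hD) (h𝒟.ne D' hD')).1 hiso)
  · obtain ⟨h1, h2, -⟩ := hP.spec ha hb h
    have h3 := hP.norm
    rw [h2, norm_pt ha hb h1] at h3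
    obtain ⟨D', hD', hsq⟩ := h𝒟.all _ h1 h3
    refine ⟨pt a b D', mem_image_of_mem _ hD', ?_⟩
    rw [h2]
    exact (iso_iff ha hb h1 (h𝒟.ne D' hD')).2 hsq

/-- transport of sums and of numbers -/
theorem transport (ha : a ≠ 0) (hb : b ≠ 0) (h : ∀ x : F, x ^ 3 + a * x + b ≠ 0) {X : ℝ}
    {𝒲 : Finset (F × F)} (h𝒲 : Curves a b X 𝒲) :
    (𝒲.image (dd b)).card = 𝒲.card ∧
    (∀ f : ℕ → ℝ, ∑ D ∈ 𝒲.image (dd b), f (rank (ca a b) (cb a b) D) = ∑ P ∈ 𝒲, f (rk P)) ∧
    ∀ n : ℕ, ((𝒲.image (dd b)).filter (fun D => n ≤ rank (ca a b) (cb a b) D)).card =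
      (𝒲.filter (fun P => n ≤ rk P)).card := by
  have hinj := inj ha hb h h𝒲
  have hrk : ∀ P ∈ 𝒲, rank (ca a b) (cb a b) (dd b P) = rk P := fun P hP => by
    rw [← rk_pt, ← ((h𝒲.mem P hP).spec ha hb h).2.1]
  refine ⟨card_image_of_injOn hinj, fun f => ?_, fun n => ?_⟩
  · rw [sum_image hinj]
    exact sum_congr rfl fun P hP => by rw [hrk P hP]
  · rw [filter_image, card_image_of_injOn (hinj.mono (by exact_mod_cast filter_subset _ _))]
    exact congrArg card (filter_congr fun P hP => by rw [hrk P hP])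

end proof

/-- Let `F` be a number field and `E_(a, b)`, `a, b ≠ 0`, an elliptic curve over `F` without `F`-rational point of order two.
Consider the elliptic curves over `F` with the j-invariant of `E_(a, b)`.  (A) For all `X ≥ 1` there are complete sets of
representatives of the isomorphism classes of these curves up to `X`; they have between `X/C` and `C X` elements.  (B) For
every `k` there is a `C` such that for all `X ≥ 1`, if `𝒲` is a complete set of representatives: (1) the mean of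
`2^(k rank)` over `𝒲` is at most `C`; (2) the mean of `rank^k` is at most `C`; (3) for all `n` the proportion of the curves of
rank at least `n` is at most `C / 2^(k n)`; and if `𝒲` is any finite set of such curves, not isomorphic to each other, up to
`X`: (4) `∑ 2^(k rank) ≤ C X`; (5) `∑ rank^k ≤ C X`; (6) at most `C X / 2^(k n)` of them have rank at least `n`;
(7) `k ∑ rank ≤ |𝒲| log₂ (C X / |𝒲|)` if `𝒲` is not empty. -/
theorem result (F : Type) [Field F] [NumberField F] (a b : F) (ha : a ≠ 0)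
    (hb : b ≠ 0) (h : ∀ x : F, x ^ 3 + a * x + b ≠ 0) :
    (∃ C : ℝ, 0 < C ∧ ∀ X : ℝ, 1 ≤ X → (∃ 𝒲 : Finset (F × F), AllCurves a b X 𝒲) ∧
      ∀ 𝒲 : Finset (F × F), AllCurves a b X 𝒲 → X / C ≤ 𝒲.card ∧ (𝒲.card : ℝ) ≤ C * X) ∧
    ∀ k : ℕ, ∃ C : ℝ, 0 < C ∧ ∀ X : ℝ, 1 ≤ X → ∀ 𝒲 : Finset (F × F),
      (AllCurves a b X 𝒲 → (∑ P ∈ 𝒲, (2 : ℝ) ^ (k * rk P) ≤ C * 𝒲.card) ∧
        (∑ P ∈ 𝒲, (rk P : ℝ) ^ k ≤ C * 𝒲.card) ∧
        ∀ n : ℕ, ((𝒲.filter (fun P => n ≤ rk P)).card : ℝ) ≤ C * 𝒲.card / 2 ^ (k * n)) ∧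
      (Curves a b X 𝒲 → (∑ P ∈ 𝒲, (2 : ℝ) ^ (k * rk P) ≤ C * X) ∧
        (∑ P ∈ 𝒲, (rk P : ℝ) ^ k ≤ C * X) ∧
        (∀ n : ℕ, ((𝒲.filter (fun P => n ≤ rk P)).card : ℝ) ≤ C * X / 2 ^ (k * n)) ∧
        (𝒲.Nonempty → k * ∑ P ∈ 𝒲, (rk P : ℝ) ≤ 𝒲.card * Real.logb 2 (C * X / 𝒲.card))) := by
  refine ⟨?_, fun k => ?_⟩
  · obtain ⟨C, hC, hmain⟩ := t_family F
    refine ⟨C, hC, fun X hX => ⟨?_, fun 𝒲 h𝒲 => ?_⟩⟩
    · obtain ⟨𝒟, h𝒟⟩ := (hmain X hX).1
      exact ⟨_, exists_allCurves ha hb h h𝒟⟩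
    · have h1 := (hmain X hX).2 _ (allTwists ha hb h h𝒲)
      rwa [(transport ha hb h h𝒲.toCurves).1] at h1
  · have hm := moments t_goal Unit F (fun _ => ca a b) (fun _ => cb a b)
      (fun _ => noroot ha hb h) k
    obtain ⟨C, hC, hmain⟩ := rankBounded (rank (ca a b) (cb a b)) k (by
      obtain ⟨C, hC, h1⟩ := hm
      refine ⟨C, hC, fun X hX 𝒟 h𝒟 => (sum_le_sum fun D hD => ?_).trans (h1 X hX 𝒟 h𝒟)⟩
      simp only [prod_const, card_univ, Fintype.card_unit, pow_one]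
      refine pow_le_pow_left₀ (by positivity) ?_ k
      exact_mod_cast rank_le t_fin (noroot ha hb h) (h𝒟.ne D hD))
    refine ⟨C, hC, fun X hX 𝒲 => ⟨fun h𝒲 => ?_, fun h𝒲 => ?_⟩⟩
    · obtain ⟨t1, t2, t3⟩ := transport ha hb h h𝒲.toCurves
      obtain ⟨h1, h2, h3⟩ := (hmain X hX _).2 (allTwists ha hb h h𝒲)
      rw [t2 (fun m => (2 : ℝ) ^ (k * m)), t1] at h1
      rw [t2 (fun m => (m : ℝ) ^ k), t1] at h2
      refine ⟨h1, h2, fun n => ?_⟩
      have h4 := h3 n
      rwa [t3, t1] at h4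
    · obtain ⟨t1, t2, t3⟩ := transport ha hb h h𝒲
      obtain ⟨h1, h2, h3, h5⟩ := (hmain X hX _).1 (twists ha hb h h𝒲)
      rw [t2 (fun m => (2 : ℝ) ^ (k * m))] at h1
      rw [t2 (fun m => (m : ℝ) ^ k)] at h2
      refine ⟨h1, h2, fun n => ?_, fun hne => ?_⟩
      · have h4 := h3 n
        rwa [t3] at h4
      · have h4 := h5 (hne.image _)
        rwa [t1, t2 (fun m => (m : ℝ))] at h4

end Pool.Agent.Results.MP_81dc49_nt.FixedJInvariant
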