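import Pool.Agent.Q279.HB.Avg

/-!
# Bounded average rank and superexponential tails for the order of vanishing over `S_B`

Let `k` be a finite field with `q` elements, of characteristic at least `5`. The ordering of the
elliptic curves over `k(t)` is the one of the problem: `S_B` is the set of the pairs `(a, b)` of
elements of `k(t)` with `4 a ^ 3 + 27 b ^ 2 ≠ 0` and Weil heights `H(a), H(b) ≤ B`, and `E_{a,b}` is
the curve `y ^ 2 = x ^ 3 + a x + b`.
-/

set_option autoImplicit false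
set_option linter.all false
set_option maxHeartbeats 1000000

open Polynomial

namespace Pool.Agent.Results.MP_81dc49_nt.HeightBoxTails

section defs

/-- The number of solutions of `y ^ 2 = x ^ 3 + a x + b` in a ring. -/
noncomputable def affinePoints (R : Type) [CommRing R] (a b : R) : ℕ :=
  Nat.card {z : R × R // z.2 ^ 2 = z.1 ^ 3 + a * z.1 + b}

/-- `α ^ j + β ^ j`, where `α + β = a` and `α β = c`. -/
def powerTrace (a c : ℤ) (j : ℕ) : ℤ :=
  ((!![a, -c; 1, 0] : Matrix (Fin 2) (Fin 2) ℤ) ^ j).trace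

variable {k : Type} [Field k]

open Classical in
/-- The number `α ^ j + β ^ j` at the place of `k(t)` given by the prime `P`: the Euler factor of
`y ^ 2 = x ^ 3 + A x + B` (minimal at `P`) is `(1 - α T) (1 - β T) = 1 - a T + c T ^ 2` in
`T = q_P ^ (-s)`, with `a = q_P - (number of affine points modulo P)`, `q_P = q ^ (deg P)`, and
`c = q_P` for good reduction, `c = 0` for bad reduction. -/
noncomputable def primeTerm (A B P : k[X]) (j : ℕ) : ℤ :=
  powerTrace
    ((Nat.card k : ℤ) ^ P.natDegree -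
      affinePoints (AdjoinRoot P) (AdjoinRoot.mk P A) (AdjoinRoot.mk P B))
    (if P ∣ 4 * A ^ 3 + 27 * B ^ 2 then 0 else (Nat.card k : ℤ) ^ P.natDegree) j

open Classical in
/-- The same at the infinite place, where the reduction is `y ^ 2 = x ^ 3 + a x + b`. -/
noncomputable def infinityTerm (a b : k) (j : ℕ) : ℤ :=
  powerTrace ((Nat.card k : ℤ) - affinePoints k a b)
    (if 4 * a ^ 3 + 27 * b ^ 2 = 0 then 0 else (Nat.card k : ℤ)) j

open Classical in
/-- The number `S_m` in `L(T, E) = exp (∑ S_m T ^ m / m)`: the sum over the places `v` with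
`deg v ∣ m` of `deg v (α_v ^ (m / deg v) + β_v ^ (m / deg v))`, for the global minimal equation
`y ^ 2 = x ^ 3 + A x + B` with `deg A ≤ 4 d`, `deg B ≤ 6 d`. -/
noncomputable def logCoeff (d : ℕ) (A B : k[X]) (m : ℕ) : ℤ :=
  infinityTerm (A.coeff (4 * d)) (B.coeff (6 * d)) m +
    ∑ᶠ P : k[X], if P.Monic ∧ Irreducible P ∧ P.natDegree ∣ m then
      (P.natDegree : ℤ) * primeTerm A B P (m / P.natDegree) else 0

/-- `y ^ 2 = x ^ 3 + A x + B` is a global minimal equation of an elliptic curve over `k(t)`, with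
discriminant of degree `12 d` (the place at infinity included): `deg A ≤ 4 d` and `deg B ≤ 6 d` (and
this fails for `d - 1`), the discriminant is not zero, and there is no prime `P` with `P ^ 4 ∣ A` and
`P ^ 6 ∣ B`. -/
def IsMinimal (d : ℕ) (A B : k[X]) : Prop :=
  A.natDegree ≤ 4 * d ∧ B.natDegree ≤ 6 * d ∧
    (0 < d → ¬ (A.natDegree + 4 ≤ 4 * d ∧ B.natDegree + 6 ≤ 6 * d)) ∧
    4 * A ^ 3 + 27 * B ^ 2 ≠ 0 ∧ ∀ P : k[X], Irreducible P → ¬ (P ^ 4 ∣ A ∧ P ^ 6 ∣ B)

/-- `L(T, E) = ∏ (1 - q β_i T)` has degree `N ≤ 12 d` and all `β_i` have absolute value one. -/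
def IsSpectrum (d : ℕ) (A B : k[X]) {N : ℕ} (β : Fin N → ℂ) : Prop :=
  N ≤ 12 * d ∧ (∀ i, ‖β i‖ = 1) ∧
    ∀ m : ℕ, 0 < m → (logCoeff d A B m : ℂ) = -((Nat.card k : ℂ) ^ m * ∑ i, β i ^ m)

open Classical in
/-- The order of vanishing of `L(T, E_{a,b})` at `T = 1 / q` is at least `R`. For `R > 0`: there is a
global minimal equation `y ^ 2 = x ^ 3 + A x + B` of `E_{a,b}`, `(A, B) = (a v ^ 4, b v ^ 6)`, whose
`L`-function is `∏ (1 - q β_i T)` with `|β_i| = 1`, and at least `R` of the `β_i` are one. (For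
constant curves the order of vanishing is zero.) -/
def OrderAtLeast (a b : RatFunc k) (R : ℕ) : Prop :=
  R = 0 ∨ ∃ (d : ℕ) (A B : k[X]) (v : RatFunc k), v ≠ 0 ∧
    a * v ^ 4 = algebraMap k[X] (RatFunc k) A ∧ b * v ^ 6 = algebraMap k[X] (RatFunc k) B ∧
    IsMinimal d A B ∧ ∃ (N : ℕ) (β : Fin N → ℂ), IsSpectrum d A B β ∧
      R ≤ (Finset.univ.filter fun i => β i = 1).card

/-- The Weil height on `k(t)`: `H(m / n) = q ^ max (deg m) (deg n)` for coprime `m`, `n`. -/
noncomputable def height (x : RatFunc k) : ℕ :=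
  Nat.card k ^ max x.num.natDegree x.denom.natDegree

variable (k) in
/-- The set `S_B` of the problem. -/
def box (B : ℝ) : Set (RatFunc k × RatFunc k) :=
  {x | 4 * x.1 ^ 3 + 27 * x.2 ^ 2 ≠ 0 ∧ (height x.1 : ℝ) ≤ B ∧ (height x.2 : ℝ) ≤ B}

open Classical in
/-- The rank of the group `E_{a,b}(k(t))`. -/
noncomputable def rank (a b : RatFunc k) : ℕ :=
  Module.finrank ℤ (WeierstrassCurve.mk 0 0 0 a b : WeierstrassCurve (RatFunc k)).toAffine.Point

/-- The proportion of the pairs in `S_B` with the property `p` is at most `δ`. -/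
def Proportion (B : ℝ) (p : RatFunc k → RatFunc k → Prop) (δ : ℝ) : Prop :=
  ({x : RatFunc k × RatFunc k | x ∈ box k B ∧ p x.1 x.2}.ncard : ℝ) ≤ δ * (box k B).ncard

/-- The average of `f` over `S_B` is at most `c`. -/
def MeanAtMost (B : ℝ) (f : RatFunc k → RatFunc k → ℝ) (c : ℝ) : Prop :=
  ∑ᶠ x ∈ box k B, f x.1 x.2 ≤ c * (box k B).ncard

/-- The proportion of the pairs in `S_B` with `r ≥ R` is at most `6 (24 / R) ^ ⌊R / 96⌋` for all
`R ≥ 1`, the average of `r` is at most `92`, and the average of `s ^ r` is at most `C(s)` for all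
`s ≥ 0`. -/
def Tails (B : ℝ) (r : RatFunc k → RatFunc k → ℕ) (C : ℝ → ℝ) : Prop :=
  (∀ R : ℕ, 0 < R → Proportion B (fun a b => R ≤ r a b) (6 * (24 / (R : ℝ)) ^ (R / 96))) ∧
  MeanAtMost B (fun a b => r a b) 92 ∧
  ∀ s : ℝ, 0 ≤ s → MeanAtMost B (fun a b => s ^ r a b) (C s)

/-- The function `r` is at most the order of vanishing at `T = 1 / q`. -/
def AtMostOrder (r : RatFunc k → RatFunc k → ℕ) : Prop :=
  ∀ a b : RatFunc k, 4 * a ^ 3 + 27 * b ^ 2 ≠ 0 → OrderAtLeast a b (r a b)

end defs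

section proof

open Pool.Agent.TH180.RT Pool.Agent.Q279.HB

variable {k : Type} [Field k]

theorem primeTerm_eq (A B P : k[X]) (j : ℕ) : primeTerm A B P j = locP A B P j := rfl

theorem infinityTerm_eq (a b : k) (j : ℕ) : infinityTerm a b j = locI a b j := rfl

theorem logCoeff_eq (d : ℕ) (A B : k[X]) (m : ℕ) : logCoeff d A B m = psum d A B m := rfl

theorem order_iff (a b : RatFunc k) (R : ℕ) : OrderAtLeast a b R ↔ R = 0 ∨ Bad R a b := by
  unfold OrderAtLeast Bad IsModel Big IsSpectrum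
  refine or_congr Iff.rfl ?_
  constructor
  · rintro ⟨d, A, B, v, hv, h1, h2, h3, N, β, ⟨h4, h5, h6⟩, h7⟩
    exact ⟨d, A, B, ⟨h3, v, hv, h1, h2⟩, N, β, h4, h5, h6, h7⟩
  · rintro ⟨d, A, B, ⟨h3, v, hv, h1, h2⟩, N, β, h4, h5, h6, h7⟩
    exact ⟨d, A, B, v, hv, h1, h2, h3, N, β, ⟨h4, h5, h6⟩, h7⟩

theorem mono {R R' : ℕ} {a b : RatFunc k} (h : OrderAtLeast a b R') (hR : R ≤ R') :
    OrderAtLeast a b R := by
  rcases h with h | ⟨d, A, B, v, hv, h1, h2, h3, N, β, h4, h5⟩
  · left; omega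
  · exact Or.inr ⟨d, A, B, v, hv, h1, h2, h3, N, β, h4, hR.trans h5⟩

open Classical in
theorem box_cases [Fintype k] (B : ℝ) :
    box k B = ∅ ∨ ∃ N : ℕ, box k B = (SF k N : Set (RatFunc k × RatFunc k)) := by
  have hq : 1 < Nat.card k := Finite.one_lt_card
  by_cases hB : B < 1
  · left
    ext x
    simp only [Set.mem_empty_iff_false, iff_false]
    rintro ⟨-, h, -⟩
    have h1 : (1 : ℝ) ≤ (height x.1 : ℝ) := by
      have : 1 ≤ height x.1 := Nat.one_le_pow _ _ (by omega)
      exact_mod_cast this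
    linarith
  · right
    push Not at hB
    refine ⟨Nat.log (Nat.card k) ⌊B⌋₊, ?_⟩
    have h0 : ⌊B⌋₊ ≠ 0 := by
      have : 1 ≤ ⌊B⌋₊ := Nat.le_floor (by exact_mod_cast hB)
      omega
    have key : ∀ x : RatFunc k, (height x : ℝ) ≤ B ↔ Le (Nat.log (Nat.card k) ⌊B⌋₊) x := by
      intro x
      rw [← Nat.le_floor_iff (by linarith), height, ← Nat.le_log_iff_pow_le hq h0, max_le_iff]
      rfl
    ext x
    rw [Finset.mem_coe, mem_SF, ← key, ← key]
    constructor
    · rintro ⟨h1, h2, h3⟩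
      exact ⟨⟨h2, h3⟩, h1⟩
    · rintro ⟨⟨h2, h3⟩, h1⟩
      exact ⟨h1, h2, h3⟩

theorem fin_box [Finite k] (B : ℝ) : (box k B).Finite := by
  classical
  let _ : Fintype k := Fintype.ofFinite k
  rcases box_cases (k := k) B with h | ⟨N, h⟩
  · rw [h]; exact Set.finite_empty
  · rw [h]; exact Finset.finite_toSet _

open Classical in
theorem prop_order [Finite k] (h6 : (6 : k) ≠ 0) (B : ℝ) {R : ℕ} (hR : 0 < R) :
    Proportion B (fun a b : RatFunc k => OrderAtLeast a b R)
      (6 * (24 / (R : ℝ)) ^ (R / 96)) := by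
  let _ : Fintype k := Fintype.ofFinite k
  unfold Proportion
  rcases box_cases (k := k) B with h | ⟨N, h⟩
  · rw [h]
    simp
  · rw [h]
    have h1 := tail_SF h6 N hR
    have e : {x : RatFunc k × RatFunc k | x ∈ (SF k N : Set (RatFunc k × RatFunc k)) ∧
        OrderAtLeast x.1 x.2 R} =
        (((SF k N).filter fun x => Bad R x.1 x.2 : Finset (RatFunc k × RatFunc k)) :
          Set (RatFunc k × RatFunc k)) := by
      ext x
      rw [Finset.mem_coe, Finset.mem_filter, Set.mem_setOf_eq, Finset.mem_coe, order_iff]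
      constructor
      · rintro ⟨h1, h2 | h2⟩
        · omega
        · exact ⟨h1, h2⟩
      · rintro ⟨h1, h2⟩
        exact ⟨h1, Or.inr h2⟩
    rw [e, Set.ncard_coe_finset, Set.ncard_coe_finset]
    exact h1

theorem prop_mono [Finite k] {B : ℝ} {p p' : RatFunc k → RatFunc k → Prop} {δ : ℝ}
    (h : Proportion B p δ) (hp : ∀ x ∈ box k B, p' x.1 x.2 → p x.1 x.2) : Proportion B p' δ := by
  unfold Proportion at h ⊢
  refine le_trans ?_ h
  have h1 : {x : RatFunc k × RatFunc k | x ∈ box k B ∧ p' x.1 x.2} ⊆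
      {x : RatFunc k × RatFunc k | x ∈ box k B ∧ p x.1 x.2} :=
    fun x hx => ⟨hx.1, hp _ hx.1 hx.2⟩
  exact_mod_cast Set.ncard_le_ncard h1 ((fin_box B).subset fun x hx => hx.1)

theorem tails_of [Finite k] (h6 : (6 : k) ≠ 0) (B : ℝ) {r : RatFunc k → RatFunc k → ℕ}
    (hr : AtMostOrder r) : Tails B r (cst 96 6) := by
  classical
  let _ : Fintype k := Fintype.ofFinite k
  have h1 : ∀ R : ℕ, 0 < R →
      Proportion B (fun a b => R ≤ r a b) (6 * (24 / (R : ℝ)) ^ (R / 96)) := by
    intro R hR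
    exact prop_mono (prop_order h6 B hR) fun x hx h => mono (hr _ _ hx.1) h
  refine ⟨h1, ?_, fun s hs => ?_⟩
  · unfold MeanAtMost
    rcases box_cases (k := k) B with h | ⟨N, h⟩
    · rw [h]
      simp
    · rw [h, finsum_mem_coe_finset, Set.ncard_coe_finset]
      refine avg_SF h6 N (fun x => r x.1 x.2) fun x hx => ?_
      rw [← order_iff]
      exact hr _ _ (mem_SF.1 hx).2
  · unfold MeanAtMost
    rw [finsum_mem_eq_finite_toFinset_sum _ (fin_box B),
      Set.ncard_eq_toFinset_card _ (fin_box B)]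
    refine exp_moment (fin_box B).toFinset (fun x : RatFunc k × RatFunc k => r x.1 x.2)
      (by norm_num) (by norm_num) ?_ hs
    intro R hR
    have h2 := h1 R hR
    unfold Proportion at h2
    rw [Set.ncard_eq_toFinset_card _ (fin_box B)] at h2
    have h3 : (24 / (R : ℝ)) ^ (R / 96) ≤ tl 96 R := by
      unfold tl
      apply pow_le_pow_left₀ (by positivity)
      apply div_le_div_of_nonneg_right (by norm_num) (Nat.cast_nonneg _)
    have h4 : 6 * (24 / (R : ℝ)) ^ (R / 96) * ((fin_box (k := k) B).toFinset.card : ℝ) ≤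
        6 * tl 96 R * ((fin_box (k := k) B).toFinset.card : ℝ) :=
      mul_le_mul_of_nonneg_right (by linarith) (Nat.cast_nonneg _)
    refine le_trans (le_of_eq ?_) (h2.trans h4)
    congr 1
    rw [← Set.ncard_coe_finset]
    congr 1
    ext x
    simp

end proof

/-- **Main theorem.** There is a function `C` such that for every finite field `k` of characteristic
at least `5`, with `q` elements, and every `B`: the proportion of the `(a, b) ∈ S_B` for which the
order of vanishing of `L(T, E_{a,b})` at `T = 1 / q` is at least `R` is at most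
`6 (24 / R) ^ ⌊R / 96⌋`. If `r` is any function bounded by the order, for example the rank, the same
holds for the pairs with `r ≥ R`, the average of `r` over `S_B` is at most `92`, and the average of
`s ^ r` is at most `C(s)`, for all `s`. -/
theorem result : ∃ C : ℝ → ℝ, ∀ (k : Type) [Field k] [Finite k], (6 : k) ≠ 0 → ∀ B : ℝ,
    (box k B).Finite ∧
    (∀ R : ℕ, 0 < R → Proportion B (fun a b : RatFunc k => OrderAtLeast a b R)
      (6 * (24 / (R : ℝ)) ^ (R / 96))) ∧
    (∀ r : RatFunc k → RatFunc k → ℕ, AtMostOrder r → Tails B r C) ∧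
    (AtMostOrder (rank (k := k)) → Tails B (rank (k := k)) C) :=
  ⟨Pool.Agent.TH180.RT.cst 96 6, fun k _ _ h6 B => ⟨fin_box B, fun R hR => prop_order h6 B hR,
    fun r hr => tails_of h6 B hr, fun hr => tails_of h6 B hr⟩⟩

end Pool.Agent.Results.MP_81dc49_nt.HeightBoxTails
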