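import Pool.Agent.Q283.EN.All

/-!
# The ranks of the cubic twists over every number field containing the third roots of unity

Let `F` be any number field which contains a primitive third root of unity, `E_D : y² + D y = x³`, `D ∈ F^*` (over `F` the curve
is isomorphic to `x³ + y³ = D`, and to `E_{D a³}`).  Prescribe `D` up to cubes in the completions at all places above the prime
numbers `≤ y`, and the orders `z_i ≠ 0` modulo `3` of `D` at `k` further primes `q_0, …, q_(k-1)`, of norms `≤ X_0, …, X_(k-1)`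
(the order is divisible by `3` at all other primes; `D` is determined by the `q_i` up to cubes). For large `k`, `X_0`, then
`X_1` large in terms of `X_0`, and so on: the average rank of `E_D(F)` is less than `0.81`; the rank is `0` for more than `63.9` %,
at most `2` for more than `95.8` %, at most `4` for more than `99.8` % of the tuples; in general the share of the tuples with a
rank `> 2 n` is at most `1 - α(0) - … - α(n) + ε`, `α(r) = ∏_(i ≥ 0) (1 - 3^(-2i-1)) / ∏_(i = 1..r) (3^i - 1)`.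

The proof gives the exact law of the Selmer groups of the endomorphism `√-3` (`Pool/Agent/Q283/EN`): they have the order
`3^(r+1)` with the limiting frequency `α(r)`, and the rank of `E_D(F)` is at most `2 r`. `CubicTwistsOverNumberFields` (helper7)
had the bound `1` instead of `0.81`.  The parts were proved together with helpers 7, 14, 22, 26, 38, 53, 65, 68, 121, 123, 124,
129, 150, 153, 162, 164, 176, 181, 190, 193, 195, 208, 211, 222, 223, 224, 238, 241, 251, 262, 265, 275, 277, 285 and 296.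
-/

set_option autoImplicit false

namespace Pool.Agent.Results.MP_81dc49_nt.RanksOfCubicTwists

open NumberField IsDedekindDomain Filter Topology WeierstrassCurve
open Pool.Agent.TH841.SH.D (Pt)

/-- The curve `E_D : y² + D y = x³`. -/
def curve {F : Type} [Field F] (D : F) : WeierstrassCurve F := ⟨0, 0, D, 0, 0⟩

section Ensemble

variable {F : Type} [Field F] [NumberField F]

/-- The rank of the group `E_D(F)` over `ℤ`. -/
noncomputable def rank (D : F) : ℕ := Module.finrank ℤ (Pt (curve D) F)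

/-- The order of `a` at `v` modulo `3`. -/
noncomputable def orderMod (v : HeightOneSpectrum (𝓞 F)) (a : F) : ZMod 3 :=
  -((WithZero.log (v.valuation F a) : ℤ) : ZMod 3)

/-- `a` is the cube of a nonzero element of the completion of `F` at `v`. -/
def CubeAt (v : HeightOneSpectrum (𝓞 F)) (a : F) : Prop :=
  a ≠ 0 ∧ ∃ s : v.adicCompletion F, (a : v.adicCompletion F) = s ^ 3

/-- `v` lies above a prime number `l ≤ y`. -/
def Small (y : ℕ) (v : HeightOneSpectrum (𝓞 F)) : Prop :=
  ∃ l : ℕ, l.Prime ∧ l ≤ y ∧ (l : 𝓞 F) ∈ v.asIdeal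

open Classical in
/-- Among the primes not above prime numbers `≤ y` the order of `D` modulo `3` is `z i` at the prime `q i` and `0` at the
others; and at the primes above prime numbers `≤ y` the number `D` is equal to `D₀` up to local cubes. -/
structure Fits (y : ℕ) (D₀ : F) {k : ℕ} (z : Fin k → ZMod 3) (q : Fin k → HeightOneSpectrum (𝓞 F)) (D : F) :
    Prop where
  ne : D ≠ 0
  ram : ∀ v : HeightOneSpectrum (𝓞 F), ¬ Small y v → orderMod v D = ∑ i, if q i = v then z i else 0
  loc : ∀ v : HeightOneSpectrum (𝓞 F), Small y v → CubeAt v (D / D₀)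

/-- The ensemble: the tuples of `k` different primes `q i`, not above prime numbers `≤ y`, of norm `≤ X i`, to which a
`D` belongs. -/
def Ensemble (y : ℕ) (D₀ : F) {k : ℕ} (z : Fin k → ZMod 3) (X : Fin k → ℕ) : Set (Fin k → HeightOneSpectrum (𝓞 F)) :=
  {q | (Function.Injective q ∧ ∀ i, ¬ Small y (q i) ∧ Ideal.absNorm (q i).asIdeal ≤ X i) ∧
    ∃ D, Fits y D₀ z q D}

end Ensemble

/-- `P X` is true for all large `X 0`, for all `X 1` which are large in terms of `X 0`, …, for all `X (k-1)` which are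
large in terms of the others. -/
def Nested : (k : ℕ) → ((Fin k → ℕ) → Prop) → Prop
  | 0, P => P Fin.elim0
  | k + 1, P => Nested k fun X => ∀ᶠ x : ℕ in atTop, P (Fin.snoc (α := fun _ => ℕ) X x)

/-- The share of the elements of the finite set `T` with the property `P`. -/
noncomputable def share {α : Type} (T : Set α) (P : α → Prop) : ℝ := ({q ∈ T | P q}.ncard : ℝ) / T.ncard

/-- The average of `f` over the finite set `T`. -/
noncomputable def average {α : Type} (T : Set α) (f : α → ℕ) : ℝ := (∑ᶠ q ∈ T, (f q : ℝ)) / T.ncard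

/-- The limit of the proportion of the symmetric matrices over `F_3` of corank `r`:
`∏_(i ≥ 0) (1 - 3^(-2i-1)) / ∏_(i = 1..r) (3^i - 1)`. -/
noncomputable def law (r : ℕ) : ℝ :=
  (∏' i : ℕ, (1 - (1 / 3 : ℝ) ^ (2 * i + 1))) / ∏ i ∈ Finset.range r, ((3 : ℝ) ^ (i + 1) - 1)

section Proof

theorem nested_iff : ∀ (k : ℕ) (P : (Fin k → ℕ) → Prop), Nested k P ↔ Q283.LQ.Nest k P
  | 0, _ => Iff.rfl
  | k + 1, _ => nested_iff k _

theorem law_eq (r : ℕ) : law r = Q283.EN.al 3 r := by
  unfold law Q283.EN.al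
  norm_num

variable {F : Type} [Field F] [NumberField F]

theorem fits_iff {y : ℕ} {D₀ : F} {k : ℕ} {z : Fin k → ZMod 3}
    {q : Fin k → HeightOneSpectrum (𝓞 F)} {D : F} : Fits y D₀ z q D ↔ Q7.LK.Fits 3 y D₀ z q D := by
  constructor
  · intro h
    exact ⟨h.ne, h.ram, fun v hv => (Q7.LK.t_CPL 3 F v _).mpr (h.loc v hv)⟩
  · intro h
    exact ⟨h.ne, h.ram, fun v hv => (Q7.LK.t_CPL 3 F v _).mp (h.loc v hv)⟩

theorem law_zero : 639 / 1000 < law 0 := by
  have h := Q283.EN.t_NUMA.1.1
  rw [← law_eq] at h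
  norm_num at h ⊢
  linarith

theorem law_one : law 1 = law 0 / 2 := by
  unfold law
  rw [Finset.prod_range_one, Finset.prod_range_zero]
  norm_num

theorem law_two : law 2 = law 0 / 16 := by
  unfold law
  rw [Finset.prod_range_succ, Finset.prod_range_one, Finset.prod_range_zero]
  norm_num

/-- the tails of the ranks from the law -/
theorem tail {α : Type} (T : Finset α) (r ρ : α → ℕ) (hρ : ∀ q ∈ T, ρ q ≤ 2 * r q) (η : ℝ) (R : ℕ)
    (S : ℕ → Set α) (hS : ∀ j ≤ R, ∀ q ∈ S j, q ∈ T ∧ r q = j)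
    (hlaw : ∀ j ≤ R, |((S j).ncard : ℝ) - law j * (T.card : ℝ)| ≤ η * (T.card : ℝ)) (n : ℕ) (hn : n ≤ R) :
    (({q ∈ (T : Set α) | 2 * n ≤ ρ q + 1}.ncard : ℕ) : ℝ) ≤ (1 - ∑ j ∈ Finset.range n, law j + n * η) * (T.card : ℝ) := by
  classical
  have h1 : ∀ j ≤ R, (law j - η) * (T.card : ℝ) ≤ ((T.filter (fun q => r q = j)).card : ℝ) := by
    intro j hj
    have h2 : S j ⊆ ((T.filter (fun q => r q = j) : Finset α) : Set α) := by
      intro q hq
      have := hS j hj q hq
      simpa using this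
    have h3 : (S j).ncard ≤ (T.filter (fun q => r q = j)).card := by
      rw [← Set.ncard_coe_finset]
      exact Set.ncard_le_ncard h2 (Finset.finite_toSet _)
    have h4 := (abs_le.1 (hlaw j hj)).1
    have h5 : ((S j).ncard : ℝ) ≤ ((T.filter (fun q => r q = j)).card : ℝ) := by exact_mod_cast h3
    nlinarith
  have h2 : (T.filter (fun q => 2 * n ≤ ρ q + 1)).card + ∑ j ∈ Finset.range n, (T.filter (fun q => r q = j)).card ≤ T.card := by
    have h3 : ∑ j ∈ Finset.range n, (T.filter (fun q => r q = j)).card = (T.filter (fun q => r q < n)).card := by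
      rw [← Finset.card_biUnion]
      · congr 1
        ext q
        simp only [Finset.mem_biUnion, Finset.mem_range, Finset.mem_filter]
        constructor
        · rintro ⟨j, hj, hq, rfl⟩
          exact ⟨hq, hj⟩
        · rintro ⟨hq, hj⟩
          exact ⟨_, hj, hq, rfl⟩
      · intro i _ j _ hij
        rw [Function.onFun, Finset.disjoint_left]
        intro q hq hq'
        rw [Finset.mem_filter] at hq hq'
        exact hij (hq.2.symm.trans hq'.2)
    rw [h3, ← Finset.card_union_of_disjoint]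
    · exact Finset.card_le_card (Finset.union_subset (Finset.filter_subset _ _) (Finset.filter_subset _ _))
    · rw [Finset.disjoint_left]
      intro q hq hq'
      rw [Finset.mem_filter] at hq hq'
      have := hρ q hq.1
      omega
  have h3 : {q ∈ (T : Set α) | 2 * n ≤ ρ q + 1}.ncard = (T.filter (fun q => 2 * n ≤ ρ q + 1)).card := by
    rw [← Set.ncard_coe_finset]
    congr 1
    ext q
    simp
  rw [h3]
  have h4 : ∑ j ∈ Finset.range n, (law j - η) * (T.card : ℝ) ≤
      ∑ j ∈ Finset.range n, ((T.filter (fun q => r q = j)).card : ℝ) := by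
    refine Finset.sum_le_sum fun j hj => h1 j ?_
    rw [Finset.mem_range] at hj
    omega
  rw [← Finset.sum_mul, Finset.sum_sub_distrib, Finset.sum_const, Finset.card_range, nsmul_eq_mul] at h4
  have h5 : ((T.filter (fun q => 2 * n ≤ ρ q + 1)).card : ℝ) + ∑ j ∈ Finset.range n, ((T.filter (fun q => r q = j)).card : ℝ) ≤
      (T.card : ℝ) := by exact_mod_cast h2
  nlinarith

end Proof

/-- **Main result.** -/
theorem result (F : Type) [Field F] [NumberField F] (ω : F) (hω : IsPrimitiveRoot ω 3) :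
    ∃ y₀ : ℕ, ∀ y, y₀ ≤ y → ∀ D₀ : F, D₀ ≠ 0 →
      (∀ (k : ℕ) (z : Fin k → ZMod 3) (q : Fin k → HeightOneSpectrum (𝓞 F)) (D D' : F),
        Fits y D₀ z q D → Fits y D₀ z q D' → ∃ x : F, D = D' * x ^ 3) ∧
      ∀ (M : ℕ) (ε : ℝ), 0 < ε → ∃ k₀ : ℕ, ∀ k, k₀ ≤ k → ∀ z : Fin k → ZMod 3, (∀ i, z i ≠ 0) → Nested k fun X =>
        (Ensemble y D₀ z X).Finite ∧ (Ensemble y D₀ z X).Nonempty ∧
        ∀ D : (Fin k → HeightOneSpectrum (𝓞 F)) → F, (∀ q ∈ Ensemble y D₀ z X, Fits y D₀ z q (D q)) →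
          average (Ensemble y D₀ z X) (fun q => rank (D q)) < 81 / 100 ∧
          639 / 1000 < share (Ensemble y D₀ z X) (fun q => rank (D q) = 0) ∧
          958 / 1000 < share (Ensemble y D₀ z X) (fun q => rank (D q) ≤ 2) ∧
          998 / 1000 < share (Ensemble y D₀ z X) (fun q => rank (D q) ≤ 4) ∧
          ∀ n ≤ M, share (Ensemble y D₀ z X) (fun q => 2 * n < rank (D q)) ≤
            1 - ∑ r ∈ Finset.range (n + 1), law r + ε := by
  obtain ⟨y0, hy0⟩ := Q283.EN.t_CMAIN F ω hω
  refine ⟨y0, fun y hy D₀ hD₀ => ⟨fun k z q D D' hD hD' => ?_, fun M ε hε => ?_⟩⟩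
  · obtain ⟨x, hx⟩ := (hy0 y hy D₀ hD₀).1 k z q D D' (fits_iff.mp hD) (fits_iff.mp hD')
    refine ⟨x, ?_⟩
    rw [← hx, mul_div_cancel₀ _ hD'.ne]
  have hav : 2 * Q283.EN.avg 3 < 0.81 := Q283.EN.t_NUMA.2.2.1
  have hl0 := law_zero
  set R : ℕ := M + 3 with hR
  set η : ℝ := min (min (ε / (R + 1)) ((0.81 - 2 * Q283.EN.avg 3) / 4)) (min (1 / 10000) ((law 0 - 639 / 1000) / 2)) with hη
  have hR0 : (0 : ℝ) < (R : ℝ) + 1 := by positivity
  have hη0 : 0 < η := by
    refine lt_min (lt_min (div_pos hε hR0) (by linarith)) (lt_min (by norm_num) (by linarith))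
  have hη1 : η ≤ ε / (R + 1) := (min_le_left _ _).trans (min_le_left _ _)
  have hη2 : η ≤ (0.81 - 2 * Q283.EN.avg 3) / 4 := (min_le_left _ _).trans (min_le_right _ _)
  have hη3 : η ≤ 1 / 10000 := (min_le_right _ _).trans (min_le_left _ _)
  have hη4 : η ≤ (law 0 - 639 / 1000) / 2 := (min_le_right _ _).trans (min_le_right _ _)
  obtain ⟨k0, hk1, hk0⟩ := (hy0 y hy D₀ hD₀).2 R η hη0
  refine ⟨k0, fun k hk z hz => (nested_iff k _).mpr (Q7.LK.nest_mono k _ _ (fun X hX => ?_) (hk0 k hk z hz))⟩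
  obtain ⟨hfin, hpos, hlaw, -, hmean⟩ := hX
  have hE : Ensemble y D₀ z X =
      {q ∈ (Q283.LQ.Box y X : Set (Fin k → HeightOneSpectrum (𝓞 F))) | ∃ D, Q7.LK.Fits 3 y D₀ z q D} := by
    ext q
    simp only [Ensemble, Q283.LQ.Box, Set.mem_ofPred_eq, fits_iff]
    rfl
  have hEfin : (Ensemble y D₀ z X).Finite := by
    rw [hE]
    exact hfin.subset (fun q hq => hq.1)
  rw [← hE] at hpos hlaw
  have hne : (Ensemble y D₀ z X).Nonempty := by
    rw [← Set.ncard_pos hEfin]
    exact_mod_cast hpos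
  refine ⟨hEfin, hne, fun D hD => ?_⟩
  obtain ⟨T, hT⟩ : ∃ T : Finset (Fin k → HeightOneSpectrum (𝓞 F)), (T : Set _) = Ensemble y D₀ z X :=
    ⟨hEfin.toFinset, hEfin.coe_toFinset⟩
  have hTm : ∀ q, q ∈ T ↔ q ∈ Ensemble y D₀ z X := by
    intro q
    rw [← hT, Finset.mem_coe]
  have hT' : ∀ q, q ∈ T ↔ q ∈ (Q283.LQ.Box y X : Set (Fin k → HeightOneSpectrum (𝓞 F))) ∧
      ∃ D, Q7.LK.Fits 3 y D₀ z q D := by
    intro q
    rw [hTm q, hE]
    rfl
  obtain ⟨r, h1, -, h3⟩ := hmean T D hT' (fun q hq => fits_iff.mp (hD q ((hTm q).1 hq)))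
  rw [← hT, Set.ncard_coe_finset] at hpos hlaw
  have hcard : 0 < (T.card : ℝ) := hpos
  have htail := tail T r (fun q => rank (D q)) (fun q hq => (h1 q hq).2) η R
    (fun j => {q ∈ (Q283.LQ.Box y X : Set (Fin k → HeightOneSpectrum (𝓞 F))) | (∃ D, Q7.LK.Fits 3 y D₀ z q D) ∧
      ∀ D, Q7.LK.Fits 3 y D₀ z q D → Q283.EN.HasN 3 (Q283.EN.PC D) (3 ^ (j + 1))})
    (by
      rintro j - q ⟨hq1, hq2, hq3⟩
      have hqT : q ∈ T := (hT' q).2 ⟨hq1, hq2⟩
      refine ⟨hqT, ?_⟩
      have h5 := Q283.EN.hasN_uniq (fun a h => Q283.EN.pc_ne h) (h1 q hqT).1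
        (hq3 (D q) (fits_iff.mp (hD q ((hTm q).1 hqT))))
      have h6 := Nat.pow_right_injective (le_refl 2 |>.trans (by norm_num : 2 ≤ 3)) h5
      omega)
    (fun j hj => by
      rw [law_eq]
      exact hlaw j hj)
  have hsh : ∀ (P : (Fin k → HeightOneSpectrum (𝓞 F)) → Prop) (n : ℕ) (c : ℝ), n ≤ R → (∀ q, ¬ P q → 2 * n ≤ rank (D q) + 1) →
      c < ∑ j ∈ Finset.range n, law j - n * η → c < share (T : Set (Fin k → HeightOneSpectrum (𝓞 F))) P := by
    intro P n c hn hP hc
    unfold share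
    rw [Set.ncard_coe_finset, lt_div_iff₀ hcard]
    have h5 := htail n hn
    classical
    have h6 : {q ∈ (T : Set (Fin k → HeightOneSpectrum (𝓞 F))) | P q}.ncard = (T.filter P).card := by
      rw [← Set.ncard_coe_finset]
      congr 1
      ext q
      simp
    have h7 : (T.filter P).card + (T.filter (fun q => ¬ P q)).card = T.card := Finset.card_filter_add_card_filter_not _
    have h8 : (T.filter (fun q => ¬ P q)).card ≤ {q ∈ (T : Set (Fin k → HeightOneSpectrum (𝓞 F))) | 2 * n ≤ rank (D q) + 1}.ncard := by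
      rw [← Set.ncard_coe_finset]
      refine Set.ncard_le_ncard (fun q hq => ?_) (T.finite_toSet.subset (fun q hq => hq.1))
      rw [Finset.mem_coe, Finset.mem_filter] at hq
      exact ⟨hq.1, hP q hq.2⟩
    rw [h6]
    have h9 : ((T.filter P).card : ℝ) + ((T.filter (fun q => ¬ P q)).card : ℝ) = (T.card : ℝ) := by exact_mod_cast h7
    have h10 : ((T.filter (fun q => ¬ P q)).card : ℝ) ≤
        ({q ∈ (T : Set (Fin k → HeightOneSpectrum (𝓞 F))) | 2 * n ≤ rank (D q) + 1}.ncard : ℝ) := by exact_mod_cast h8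
    nlinarith
  have hl1 := law_one
  have hl2 := law_two
  rw [← hT]
  refine ⟨?_, ?_, ?_, ?_, fun n hn => ?_⟩
  · unfold average
    rw [Set.ncard_coe_finset, div_lt_iff₀ hcard, finsum_mem_coe_finset]
    have h4 : ∑ q ∈ T, (rank (D q) : ℝ) ≤ 2 * ∑ q ∈ T, (r q : ℝ) := by
      rw [Finset.mul_sum]
      refine Finset.sum_le_sum fun q hq => ?_
      have h5 : (rank (D q) : ℝ) ≤ ((2 * r q : ℕ) : ℝ) := by
        exact_mod_cast (h1 q hq).2
      rw [Nat.cast_mul, Nat.cast_ofNat] at h5
      exact h5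
    norm_num at hη2 hav
    nlinarith
  · refine hsh _ 1 _ (by omega) (fun q hq => ?_) ?_
    · omega
    · rw [Finset.sum_range_one]
      push_cast
      linarith
  · refine hsh _ 2 _ (by omega) (fun q hq => ?_) ?_
    · omega
    · rw [Finset.sum_range_succ, Finset.sum_range_one, hl1]
      push_cast
      linarith
  · refine hsh _ 3 _ (by omega) (fun q hq => ?_) ?_
    · omega
    · rw [Finset.sum_range_succ, Finset.sum_range_succ, Finset.sum_range_one, hl1, hl2]
      push_cast
      linarith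
  · unfold share
    rw [Set.ncard_coe_finset, div_le_iff₀ hcard]
    have h7 : {q ∈ (T : Set (Fin k → HeightOneSpectrum (𝓞 F))) | 2 * n < rank (D q)} =
        {q ∈ (T : Set (Fin k → HeightOneSpectrum (𝓞 F))) | 2 * (n + 1) ≤ rank (D q) + 1} := by
      ext q
      simp only [Set.mem_ofPred_eq]
      refine and_congr_right fun _ => ?_
      omega
    rw [h7]
    refine (htail (n + 1) (by omega)).trans (mul_le_mul_of_nonneg_right ?_ hcard.le)
    have h5 : ((n + 1 : ℕ) : ℝ) * η ≤ ε := by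
      have h6 : ((n + 1 : ℕ) : ℝ) ≤ (R : ℝ) + 1 := by
        have : n + 1 ≤ R + 1 := by omega
        exact_mod_cast this
      calc ((n + 1 : ℕ) : ℝ) * η ≤ ((R : ℝ) + 1) * η := mul_le_mul_of_nonneg_right h6 hη0.le
        _ ≤ ((R : ℝ) + 1) * (ε / (R + 1)) := mul_le_mul_of_nonneg_left hη1 hR0.le
        _ = ε := by field_simp
    linarith

end Pool.Agent.Results.MP_81dc49_nt.RanksOfCubicTwists
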